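import Mathlib
import Pool.Agent.R816.WeakPsc

/-!
# A weakly pseudocompact `ℝ`-factorizable group which is not precompact

The group is `G = ℤ × Σ`, where `Σ` is the group of the elements of countable support in `(ℤ/2)^ℝ`.
-/

set_option autoImplicit false

open Topology Filter Set Pool.Agent.R816.WeakPsc

namespace Pool.Agent.Results.MP_bb2768_gt.NotPrecompact

/-- `G` is `ℝ`-factorizable: every continuous `f : G → ℝ` factors as `f = h ∘ π`, where `π : G → H` is
a continuous surjective homomorphism onto a second-countable (Hausdorff) topological group `H` and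
`h : H → ℝ` is continuous. -/
def RFactorizable (G : Type) [AddGroup G] [TopologicalSpace G] : Prop :=
  ∀ f : G → ℝ, Continuous f → ∃ (H : Type) (_ : AddGroup H) (_ : TopologicalSpace H),
    IsTopologicalAddGroup H ∧ T2Space H ∧ SecondCountableTopology H ∧
      ∃ (π : G →+ H) (h : H → ℝ), Continuous π ∧ Function.Surjective π ∧ Continuous h ∧
        ∀ g, f g = h (π g)

/-- `G` is precompact: for every neighbourhood `U` of the identity there is a finite set `F` with
`G = F + U`. -/
def Precompact (G : Type) [AddGroup G] [TopologicalSpace G] : Prop :=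
  ∀ U ∈ 𝓝 (0 : G), ∃ F : Set G, F.Finite ∧ ∀ g : G, ∃ c ∈ F, ∃ u ∈ U, g = c + u

theorem rFactorizable (I : Type) : RFactorizable (ℤ × sig I) := by
  classical
  intro f hf
  obtain ⟨A, hA, hdep⟩ := dep f hf
  have hAc : Countable A := hA.to_subtype
  let π : ℤ × sig I →+ ℤ × (A → ZMod 2) :=
    { toFun := fun g => (g.1, fun a => (g.2 : I → ZMod 2) a)
      map_zero' := rfl
      map_add' := fun _ _ => rfl }
  have hπ : Continuous π := by
    refine continuous_fst.prodMk (continuous_pi fun a => ?_)
    exact (continuous_apply (a : I)).comp (continuous_subtype_val.comp continuous_snd)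
  refine ⟨ℤ × (A → ZMod 2), inferInstance, inferInstance, inferInstance, inferInstance,
    inferInstance, π, fun q => f (q.1, ⟨ext A q.2, ext_mem hA q.2⟩), hπ, ?_, ?_, ?_⟩
  · rintro ⟨m, z⟩
    refine ⟨(m, ⟨ext A z, ext_mem hA z⟩), ?_⟩
    refine Prod.ext rfl ?_
    funext a
    show ext A z a = z a
    simp [R816.WeakPsc.ext]
  · refine hf.comp (continuous_fst.prodMk ?_)
    exact ((continuous_ext A).comp continuous_snd).subtype_mk _
  · rintro ⟨m, x⟩
    refine hdep m _ _ fun i hi => ?_
    show (x : I → ZMod 2) i = ext A (fun a => (x : I → ZMod 2) a) i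
    simp [R816.WeakPsc.ext, hi]

theorem not_precompact (H : Type) [AddGroup H] [TopologicalSpace H] : ¬ Precompact (ℤ × H) := by
  intro h
  have hU : {g : ℤ × H | g.1 = 0} ∈ 𝓝 (0 : ℤ × H) := by
    refine IsOpen.mem_nhds ?_ rfl
    exact (isOpen_discrete ({0} : Set ℤ)).preimage continuous_fst
  obtain ⟨F, hF, hF2⟩ := h _ hU
  have h1 : (Prod.fst '' F) = univ := by
    refine eq_univ_of_forall fun m => ?_
    obtain ⟨c, hc, u, hu, e⟩ := hF2 (m, 0)
    refine ⟨c, hc, ?_⟩
    have h2 := congrArg Prod.fst e
    have h3 : u.1 = 0 := hu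
    simp only [Prod.fst_add, h3, add_zero] at h2
    exact h2.symm
  have h2 : (univ : Set ℤ).Finite := h1 ▸ hF.image _
  exact infinite_univ h2

/-- There is an (abelian) Hausdorff topological group which is weakly pseudocompact and
`ℝ`-factorizable but not precompact. -/
theorem result : ∃ (G : Type) (_ : AddCommGroup G) (_ : TopologicalSpace G),
    IsTopologicalAddGroup G ∧ T2Space G ∧ WeaklyPseudocompact G ∧ RFactorizable G ∧
      ¬ Precompact G :=
  ⟨ℤ × sig ℝ, inferInstance, inferInstance, inferInstance, inferInstance,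
    weaklyPseudocompact ℝ, rFactorizable ℝ, not_precompact _⟩

end Pool.Agent.Results.MP_bb2768_gt.NotPrecompact
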